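import Pool.Agent.Run7.h480.BF.Iface

/-! Piece GOOD of project BF (helper480, MP_b9d149_co), by helper68. -/

set_option autoImplicit false

open Set Module Filter Topology
open Run7.h480.BF

namespace Run7.h68.BF

variable {E : Type} [Fintype E]

theorem wt_add' (a b : E → ℝ) (C : Set E) : wt (a + b) C = wt a C + wt b C := by
  simp [wt, Set.indicator_add', Finset.sum_add_distrib]

theorem wt_smul' (c : ℝ) (a : E → ℝ) (C : Set E) : wt (c • a) C = c * wt a C := by
  simp only [wt, Finset.mul_sum]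
  refine Finset.sum_congr rfl fun i _ => ?_
  by_cases hi : i ∈ C <;> simp [hi]

theorem ini_nonempty (M : Matroid E) (x : E → ℝ) : (Ini M x).Nonempty := by
  have hfin : {B | M.IsBase B}.Finite := Set.toFinite _
  have hne : {B | M.IsBase B}.Nonempty := M.exists_isBase
  obtain ⟨B, hB, hmin⟩ := Set.exists_min_image _ (fun B => wt x B) hfin hne
  exact ⟨B, hB, fun B' hB' => hmin B' hB'⟩

theorem seg_sub (hBERG : S_BERG) (M : Matroid E) (r : ℕ) (hM : OK M r) (K : Set (Set E))
    (hK : ∀ B ∈ K, M.IsBase B) (x y : E → ℝ) (hx : x ∈ berg M \ cn M K) (hy : y ∈ berg M \ cn M K)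
    (hne : (Ini M x ∩ Ini M y).Nonempty)
    (hcov : ∀ e, ∃ B ∈ Ini M x ∩ Ini M y, e ∈ B) :
    segment ℝ x y ⊆ berg M \ cn M K := by
  rintro z ⟨s, t, hs, ht, hst, rfl⟩
  rcases hs.eq_or_lt with hs0 | hs0
  · have : t = 1 := by linarith
    subst this
    rw [← hs0]
    simpa using hy
  rcases ht.eq_or_lt with ht0 | ht0
  · have : s = 1 := by linarith
    subst this
    rw [← ht0]
    simpa using hx
  obtain ⟨B₀, hB₀x, hB₀y⟩ := hne
  have key : Ini M (s • x + t • y) = Ini M x ∩ Ini M y := by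
    ext B
    constructor
    · rintro ⟨hB, hmin⟩
      have h0 := hmin B₀ hB₀x.1
      rw [wt_add', wt_smul', wt_smul', wt_add', wt_smul', wt_smul'] at h0
      have hx1 := hB₀x.2 B hB
      have hy1 := hB₀y.2 B hB
      have hx2 : wt x B ≤ wt x B₀ := by
        by_contra hcon
        push Not at hcon
        have h1 : s * wt x B₀ < s * wt x B := mul_lt_mul_of_pos_left hcon hs0
        have h2 : t * wt y B₀ ≤ t * wt y B := mul_le_mul_of_nonneg_left hy1 ht
        linarith
      have hy2 : wt y B ≤ wt y B₀ := by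
        by_contra hcon
        push Not at hcon
        have h1 : t * wt y B₀ < t * wt y B := mul_lt_mul_of_pos_left hcon ht0
        have h2 : s * wt x B₀ ≤ s * wt x B := mul_le_mul_of_nonneg_left hx1 hs
        linarith
      exact ⟨⟨hB, fun B' hB' => hx2.trans (hB₀x.2 B' hB')⟩,
        ⟨hB, fun B' hB' => hy2.trans (hB₀y.2 B' hB')⟩⟩
    · rintro ⟨⟨hB, h1⟩, ⟨_, h2⟩⟩
      refine ⟨hB, fun B' hB' => ?_⟩
      rw [wt_add', wt_smul', wt_smul', wt_add', wt_smul', wt_smul']
      have h3 := mul_le_mul_of_nonneg_left (h1 B' hB') hs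
      have h4 := mul_le_mul_of_nonneg_left (h2 B' hB') ht
      linarith
  refine ⟨?_, ?_⟩
  · rw [hBERG E M r hM, key]
    exact hcov
  · intro hz
    apply hy.2
    intro B hB B' hB'
    have : B ∈ Ini M (s • x + t • y) := ⟨hK B hB, fun B'' hB'' => hz B hB B'' hB''⟩
    rw [key] at this
    exact this.2.2 B' hB'

theorem sum_mem_berg (M : Matroid E) (r : ℕ) (hM : OK M r) (F G : Set E) (hF : M.IsFlat F)
    (hG : M.IsFlat G) (hFG : F ⊆ G) : ne F + ne G ∈ berg M := by
  classical
  intro C hC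
  by_contra hcon
  push Not at hcon
  have hfin : C.Finite := Set.toFinite _
  obtain ⟨e, he, hmax⟩ := Set.exists_max_image C (fun i => (ne F + ne G) i) hfin hC.nonempty
  have hlt : ∀ f ∈ C, f ≠ e → (ne F + ne G) f < (ne F + ne G) e := by
    intro f hf hfe
    rcases (hmax f hf).eq_or_lt with h | h
    · obtain ⟨g, hg, hg'⟩ := hcon e he f hf (Ne.symm hfe) h.symm
      exact absurd (hmax g hg) (not_le.mpr hg')
    · exact h
  have hcl : e ∈ M.closure (C \ {e}) := hC.mem_closure_diff_singleton_of_mem he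
  have hval : ∀ i, (ne F + ne G) i = (if i ∈ F then (-1 : ℝ) else 0) + (if i ∈ G then (-1 : ℝ) else 0) := by
    intro i
    simp only [ne, Pi.add_apply, Set.indicator]
    split_ifs <;> simp
  by_cases heF : e ∈ F
  · have heG : e ∈ G := hFG heF
    -- another element
    have hex : ∃ f ∈ C, f ≠ e := by
      by_contra hno
      push Not at hno
      have hCe : C = {e} := by
        ext i
        exact ⟨fun hi => hno i hi, fun hi => by rw [Set.mem_singleton_iff.mp hi]; exact he⟩
      rw [hCe] at hC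
      exact (hM.nonloop e).not_isLoop (Matroid.singleton_isCircuit.mp hC)
    obtain ⟨f, hf, hfe⟩ := hex
    have h := hlt f hf hfe
    rw [hval, hval, if_pos heF, if_pos heG] at h
    split_ifs at h <;> linarith
  · by_cases heG : e ∈ G
    · apply heF
      have hsub : C \ {e} ⊆ F := by
        rintro f ⟨hf, hfe⟩
        have h := hlt f hf hfe
        rw [hval, hval, if_neg heF, if_pos heG] at h
        by_contra hfF
        rw [if_neg hfF] at h
        split_ifs at h <;> linarith
      have := M.closure_subset_closure hsub hcl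
      rwa [hF.closure] at this
    · apply heG
      have hsub : C \ {e} ⊆ G := by
        rintro f ⟨hf, hfe⟩
        have h := hlt f hf hfe
        rw [hval, hval, if_neg heF, if_neg heG] at h
        by_contra hfG
        rw [if_neg hfG, if_neg (fun hfF => hfG (hFG hfF))] at h
        linarith
      have := M.closure_subset_closure hsub hcl
      rwa [hG.closure] at this

theorem flats_inter (hBERG : S_BERG) (hLEV : S_LEV) (M : Matroid E) (r : ℕ) (hM : OK M r)
    (F G : Set E) (hF : M.IsFlat F) (hG : M.IsFlat G) (hFG : F ⊆ G) :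
    (Ini M (ne F) ∩ Ini M (ne G)).Nonempty ∧ ∀ e, ∃ B ∈ Ini M (ne F) ∩ Ini M (ne G), e ∈ B := by
  classical
  have hy := sum_mem_berg M r hM F G hF hG hFG
  have hval : ∀ i, (ne F + ne G) i = (if i ∈ F then (-1 : ℝ) else 0) + (if i ∈ G then (-1 : ℝ) else 0) := by
    intro i
    simp only [ne, Pi.add_apply, Set.indicator]
    split_ifs <;> simp
  have hl1 : {i | (ne F + ne G) i ≤ -2} = F := by
    ext i
    rw [Set.mem_setOf_eq, hval]
    by_cases h1 : i ∈ F
    · rw [if_pos h1, if_pos (hFG h1)]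
      constructor
      · intro _; exact h1
      · intro _; norm_num
    · rw [if_neg h1]
      constructor
      · intro h; split_ifs at h <;> linarith
      · intro h; exact absurd h h1
  have hl2 : {i | (ne F + ne G) i ≤ -1} = G := by
    ext i
    rw [Set.mem_setOf_eq, hval]
    by_cases h1 : i ∈ G
    · rw [if_pos h1]
      constructor
      · intro _; exact h1
      · intro _; split_ifs <;> norm_num
    · rw [if_neg h1, if_neg (fun h => h1 (hFG h))]
      constructor
      · intro h; linarith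
      · intro h; exact absurd h h1
  obtain ⟨-, hL, -⟩ := hLEV E M r hM
  have h1 := (hL _ hy (-2)).2
  have h2 := (hL _ hy (-1)).2
  rw [hl1] at h1
  rw [hl2] at h2
  refine ⟨?_, fun e => ?_⟩
  · obtain ⟨B, hB⟩ := ini_nonempty M (ne F + ne G)
    exact ⟨B, h1 hB, h2 hB⟩
  · obtain ⟨B, hB, heB⟩ := (hBERG E M r hM _).mp hy e
    exact ⟨B, ⟨h1 hB, h2 hB⟩, heB⟩

theorem t_GOOD : S_BERG → S_LEV → S_FLAT → S_GOOD := by
  intro hBERG hLEV hFLAT E _ M r hM hr w hw
  set K := Ini M w with hKdef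
  have hKne : K.Nonempty := ini_nonempty M w
  have hKb : ∀ B ∈ K, M.IsBase B := fun B hB => hB.1
  have hKc : ∀ e, ∃ B ∈ K, e ∈ B := (hBERG E M r hM w).mp hw
  obtain ⟨hL1, hL2, hL3⟩ := hLEV E M r hM
  have hseg : ∀ F G : Set E, Cmp M K ne F G → JoinedIn (berg M \ cn M K) (ne F) (ne G) := by
    rintro F G ⟨⟨hF, hFK⟩, ⟨hG, hGK⟩, hFG⟩
    have hmF : ne F ∈ berg M \ cn M K := ⟨(hL1 F).mpr hF, hFK⟩
    have hmG : ne G ∈ berg M \ cn M K := ⟨(hL1 G).mpr hG, hGK⟩
    rcases hFG with h | h
    · obtain ⟨h1, h2⟩ := flats_inter hBERG hLEV M r hM F G hF hG h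
      exact JoinedIn.of_segment_subset
        (seg_sub hBERG M r hM K hKb _ _ hmF hmG h1 h2)
    · obtain ⟨h1, h2⟩ := flats_inter hBERG hLEV M r hM G F hG hF h
      exact (JoinedIn.of_segment_subset
        (seg_sub hBERG M r hM K hKb _ _ hmG hmF h1 h2)).symm
  have hjoin : ∀ F G : Set E, M.IsFlat F → M.IsFlat G → ne F ∉ cn M K → ne G ∉ cn M K →
      JoinedIn (berg M \ cn M K) (ne F) (ne G) := by
    intro F G hF hG hFK hGK
    have h := hFLAT E M r hM hr K hKne hKb hKc F G hF hG hFK hGK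
    induction h with
    | refl => exact JoinedIn.refl ⟨(hL1 F).mpr hF, hFK⟩
    | tail hab hbc ih =>
      exact (ih hbc.1.1 hbc.1.2).trans (hseg _ _ hbc)
  have hlev : ∀ x ∈ berg M \ cn M K, ∃ F, M.IsFlat F ∧ ne F ∉ cn M K ∧
      JoinedIn (berg M \ cn M K) x (ne F) := by
    rintro x ⟨hx, hxK⟩
    obtain ⟨t, ht⟩ := hL3 K hKne hKb x hx hxK
    obtain ⟨hFf, hFi⟩ := hL2 x hx t
    refine ⟨{i | x i ≤ t}, hFf, ht, ?_⟩
    refine JoinedIn.of_segment_subset
      (seg_sub hBERG M r hM K hKb _ _ ⟨hx, hxK⟩ ⟨(hL1 _).mpr hFf, ht⟩ ?_ ?_)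
    · obtain ⟨B, hB⟩ := ini_nonempty M x
      exact ⟨B, hB, hFi hB⟩
    · intro e
      obtain ⟨B, hB, heB⟩ := (hBERG E M r hM x).mp hx e
      exact ⟨B, ⟨hB, hFi hB⟩, heB⟩
  rcases Set.eq_empty_or_nonempty (berg M \ cn M K) with hem | hne
  · rw [hem]
    exact isPreconnected_empty
  · refine (IsPathConnected.isConnected (isPathConnected_iff.mpr ⟨hne, ?_⟩)).isPreconnected
    intro x hx y hy
    obtain ⟨F, hF, hFK, h1⟩ := hlev x hx
    obtain ⟨G, hG, hGK, h2⟩ := hlev y hy
    exact (h1.trans (hjoin F G hF hG hFK hGK)).trans h2.symm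

end Run7.h68.BF
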